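import Mathlib
import Pool.Agent.N752.HY.Upc
import Pool.Agent.N752.HY.Ovl

/-!
The primes at which a point meets a form with multiplicity one, and does not meet another form.
-/

set_option autoImplicit false

namespace Pool.Agent.N752.CP

open NumberField IsDedekindDomain MvPolynomial Module Height
open Pool.Agent.H691R3 (fv fv_na fv_support_finite log_fv Nv log_Nv_pos)
open Pool.Agent.N752.HY
open Pool.Agent.N752.HY.Ext
open Pool.Agent.N752.HY.Upc (logN_le CI lamInf_ge)
open Pool.Agent.R366.NF (idealHeight)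

variable {K : Type} [Field K] [NumberField K] {m : ℕ} {F G : MvPolynomial (Fin (m + 1)) (𝓞 K)}
  {κ ε : ℕ} {x : Fin (m + 1) → K}

/-- positive local heights different from `log N(v)` are at least `2 log N(v)` -/
lemma two_logN_le (hx : x ≠ 0) (hl : aeval x F ≠ 0) (v : HeightOneSpectrum (𝓞 K))
    (h : 0 < lam K F κ x v) (h1' : lam K F κ x v ≠ Real.log (Ideal.absNorm v.asIdeal)) :
    2 * Real.log (Ideal.absNorm v.asIdeal) ≤ lam K F κ x v := by
  have h1 := lam_sub (L := K) (κ := κ) hx hl v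
  have hpos := sup_pos' (fv v) (map_ne (L := K) hx)
  obtain ⟨j, hj⟩ := exists_eq_ciSup_of_finite (f := fun j => fv v (algebraMap K K (x j)))
  have hxj : algebraMap K K (x j) ≠ 0 := by
    intro h0
    rw [← hj] at hpos
    simp only [h0, map_zero] at hpos
    exact lt_irrefl _ hpos
  obtain ⟨a, ha⟩ := log_fv v hxj
  obtain ⟨b, hb⟩ := log_fv v ((map_ne_zero (algebraMap K K)).2 hl)
  have hj' : fv v (algebraMap K K (x j)) = ⨆ j, fv v (algebraMap K K (x j)) := hj
  rw [← hj', ha, hb] at h1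
  have hN := log_Nv_pos v
  have e2 : Real.log (Ideal.absNorm v.asIdeal) = Real.log (Nv v) := rfl
  have e1 : lam K F κ x v = ((κ * a - b : ℤ) : ℝ) * Real.log (Nv v) := by
    rw [h1]
    push_cast
    ring
  rw [e1] at h h1' ⊢
  rw [e2] at h1' ⊢
  have h2 : 1 ≤ (κ * a - b : ℤ) := by
    by_contra hc
    push Not at hc
    have h3 : ((κ * a - b : ℤ) : ℝ) ≤ 0 := by
      exact_mod_cast (by omega : (κ * a - b : ℤ) ≤ 0)
    exact absurd (mul_nonpos_of_nonpos_of_nonneg h3 hN.le) (not_le.2 h)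
  have h4 : (κ * a - b : ℤ) ≠ 1 := by
    intro h5
    rw [h5] at h1'
    apply h1'
    push_cast
    ring
  have h3 : (2 : ℝ) ≤ ((κ * a - b : ℤ) : ℝ) := by exact_mod_cast (by omega : (2 : ℤ) ≤ κ * a - b)
  nlinarith

open Classical in
/-- the primes outside `Bad` at which `x` meets `F = 0` with multiplicity one and does not meet
`G = 0` -/
noncomputable def good (F G : MvPolynomial (Fin (m + 1)) (𝓞 K)) (κ ε : ℕ)
    (Bad : Finset (HeightOneSpectrum (𝓞 K))) (x : Fin (m + 1) → K) :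
    Finset (HeightOneSpectrum (𝓞 K)) :=
  if h : {v : HeightOneSpectrum (𝓞 K) | 0 < lam K F κ x v}.Finite then
    h.toFinset.filter fun v => v ∉ Bad ∧ lam K F κ x v = Real.log (Ideal.absNorm v.asIdeal) ∧
      ¬ 0 < lam K G ε x v else ∅

lemma mem_good (hx : x ≠ 0) (hl : aeval x F ≠ 0) (Bad : Finset (HeightOneSpectrum (𝓞 K)))
    (v : HeightOneSpectrum (𝓞 K)) : v ∈ good F G κ ε Bad x ↔ 0 < lam K F κ x v ∧ v ∉ Bad ∧
      lam K F κ x v = Real.log (Ideal.absNorm v.asIdeal) ∧ ¬ 0 < lam K G ε x v := by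
  classical
  have hfin : {v : HeightOneSpectrum (𝓞 K) | 0 < lam K F κ x v}.Finite :=
    (lam_support (L := K) (κ := κ) hx hl).subset fun v hv => (ne_of_gt hv)
  unfold good
  rw [dif_pos hfin]
  simp only [Finset.mem_filter, Set.Finite.mem_toFinset, Set.mem_ofPred_eq]

theorem cnt_good (hF : F.IsHomogeneous κ) (hG : G.IsHomogeneous ε)
    (Bad : Finset (HeightOneSpectrum (𝓞 K))) : ∃ C : ℝ, ∀ x : Fin (m + 1) → K, x ≠ 0 →
      aeval x F ≠ 0 → aeval x G ≠ 0 →
      2 * (finrank ℚ K * cnt K ∅ (fun _ : Fin 1 => F) (fun _ => κ) Finset.univ x) -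
        κ * (finrank ℚ K * hgt x) - idealHeight F G κ ε x - C ≤
        ∑ v ∈ good F G κ ε Bad x, Real.log (Ideal.absNorm v.asIdeal) := by
  classical
  obtain ⟨C₂, hC₂⟩ := Pool.Agent.N752.HY.Ovl.t_OVL K inferInstance inferInstance m F G κ ε hF hG
  refine ⟨∑ w : InfinitePlace K, (w.mult : ℝ) * Real.log (CI F w) + C₂ +
    ∑ v ∈ Bad, Real.log (Ideal.absNorm v.asIdeal), fun x hx hl hG0 => ?_⟩
  obtain ⟨-, hov⟩ := hC₂ x hx hl hG0
  have hd : (0 : ℝ) < finrank ℚ K := by exact_mod_cast finrank_pos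
  have hfin : {v : HeightOneSpectrum (𝓞 K) | 0 < lam K F κ x v}.Finite :=
    (lam_support (L := K) (κ := κ) hx hl).subset fun v hv => (ne_of_gt hv)
  have hlogn : ∀ v : HeightOneSpectrum (𝓞 K), 0 ≤ Real.log (Ideal.absNorm v.asIdeal : ℝ) :=
    fun v => Real.log_natCast_nonneg _
  have h1 : finrank ℚ K * cnt K ∅ (fun _ : Fin 1 => F) (fun _ => κ) Finset.univ x =
      ∑ v ∈ hfin.toFinset, Real.log (Ideal.absNorm v.asIdeal) := by
    unfold cnt
    rw [mul_div_cancel₀ _ hd.ne', finsum_eq_sum_of_support_subset (s := hfin.toFinset)]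
    · refine Finset.sum_congr rfl fun v hv => ?_
      have hi := (Set.Finite.mem_toFinset _).1 hv
      exact if_pos ⟨fun p hp => absurd hp (Finset.notMem_empty p), 0, Finset.mem_univ 0, hi⟩
    · intro v hv
      rw [Finset.mem_coe, Set.Finite.mem_toFinset]
      by_contra hc
      refine hv (if_neg ?_)
      rintro ⟨-, i, -, hi⟩
      exact hc hi
  have h2 := sum_lam_le (L := K) hF hx hl hfin.toFinset
  have h4 : -∑ w : InfinitePlace K, (w.mult : ℝ) * Real.log (CI F w) ≤
      ∑ w : InfinitePlace K, (w.mult : ℝ) * lamInf K F κ x w := by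
    rw [← Finset.sum_neg_distrib]
    refine Finset.sum_le_sum fun w _ => ?_
    rw [← mul_neg]
    exact mul_le_mul_of_nonneg_left (lamInf_ge hF hx hl w) (Nat.cast_nonneg _)
  have h5 : (finrank K K : ℝ) = 1 := by simp
  rw [h5, one_mul] at h2
  have h6 : finrank ℚ K * hgt x = logHeight x := by
    unfold hgt
    rw [mul_div_cancel₀ _ hd.ne']
  -- the primes with multiplicity at least two
  obtain ⟨A, hA⟩ : ∃ A : Finset (HeightOneSpectrum (𝓞 K)), A = hfin.toFinset := ⟨_, rfl⟩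
  have hAm : ∀ v, v ∈ A ↔ 0 < lam K F κ x v := by
    intro v
    rw [hA, Set.Finite.mem_toFinset]
    exact Iff.rfl
  rw [← hA] at h1 h2
  obtain ⟨P2, hP2⟩ : ∃ P2 : Finset (HeightOneSpectrum (𝓞 K)), P2 = A.filter fun v =>
    lam K F κ x v ≠ Real.log (Ideal.absNorm v.asIdeal) := ⟨_, rfl⟩
  obtain ⟨Pg, hPg⟩ : ∃ Pg : Finset (HeightOneSpectrum (𝓞 K)), Pg = A.filter fun v =>
    0 < lam K G ε x v := ⟨_, rfl⟩
  have f5 : ∑ v ∈ A, Real.log (Ideal.absNorm v.asIdeal) +
      ∑ v ∈ P2, Real.log (Ideal.absNorm v.asIdeal) ≤ ∑ v ∈ A, lam K F κ x v := by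
    rw [hP2, Finset.sum_filter, ← Finset.sum_add_distrib]
    refine Finset.sum_le_sum fun v hv => ?_
    split_ifs with h
    · have := two_logN_le hx hl v ((hAm v).1 hv) h
      linarith
    · have := logN_le hx hl v ((hAm v).1 hv)
      linarith
  have f7 : ∑ v ∈ Pg, Real.log (Ideal.absNorm v.asIdeal) ≤ idealHeight F G κ ε x + C₂ := by
    refine le_trans (le_of_eq ?_) hov
    symm
    have hset : {v : HeightOneSpectrum (𝓞 K) | 0 < lam K F κ x v ∧ 0 < lam K G ε x v} = ↑Pg := by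
      ext v
      rw [hPg, Finset.coe_filter]
      simp only [Set.mem_ofPred_eq, hAm]
    rw [hset, finsum_mem_coe_finset]
  have f8 : ∑ v ∈ A, Real.log (Ideal.absNorm v.asIdeal) ≤
      ∑ v ∈ good F G κ ε Bad x, Real.log (Ideal.absNorm v.asIdeal) +
      (∑ v ∈ Bad, Real.log (Ideal.absNorm v.asIdeal) +
        (∑ v ∈ P2, Real.log (Ideal.absNorm v.asIdeal) +
          ∑ v ∈ Pg, Real.log (Ideal.absNorm v.asIdeal))) := by
    have hsub : A ⊆ good F G κ ε Bad x ∪ (Bad ∪ (P2 ∪ Pg)) := by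
      intro v hv
      by_cases hvT : v ∈ Bad
      · exact Finset.mem_union_right _ (Finset.mem_union_left _ hvT)
      by_cases hvg : 0 < lam K G ε x v
      · refine Finset.mem_union_right _ (Finset.mem_union_right _ (Finset.mem_union_right _ ?_))
        rw [hPg, Finset.mem_filter]
        exact ⟨hv, hvg⟩
      by_cases hvF : lam K F κ x v ≠ Real.log (Ideal.absNorm v.asIdeal)
      · refine Finset.mem_union_right _ (Finset.mem_union_right _ (Finset.mem_union_left _ ?_))
        rw [hP2, Finset.mem_filter]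
        exact ⟨hv, hvF⟩
      rw [not_not] at hvF
      refine Finset.mem_union_left _ ?_
      rw [mem_good hx hl]
      exact ⟨(hAm v).1 hv, hvT, hvF, hvg⟩
    refine (Finset.sum_le_sum_of_subset_of_nonneg hsub fun v _ _ => hlogn v).trans ?_
    have hu : ∀ A B : Finset (HeightOneSpectrum (𝓞 K)),
        ∑ v ∈ A ∪ B, Real.log (Ideal.absNorm v.asIdeal : ℝ) ≤
        ∑ v ∈ A, Real.log (Ideal.absNorm v.asIdeal : ℝ) +
          ∑ v ∈ B, Real.log (Ideal.absNorm v.asIdeal : ℝ) := by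
      intro A B
      rw [← Finset.sum_union_inter]
      exact le_add_of_nonneg_right (Finset.sum_nonneg fun v _ => hlogn v)
    have u1 := hu (good F G κ ε Bad x) (Bad ∪ (P2 ∪ Pg))
    have u2 := hu Bad (P2 ∪ Pg)
    have u3 := hu P2 Pg
    linarith
  rw [h1, h6]
  linarith

end Pool.Agent.N752.CP
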