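import Mathlib

/-!
Forms and their affine equations.
-/

set_option autoImplicit false

namespace Pool.Agent.N752.CP

open NumberField MvPolynomial

/-- the affine equation `F(1, z_1, …, z_m)` of a form with coefficients in the integers of `K` -/
noncomputable def deh {K : Type} [Field K] [NumberField K] {m : ℕ}
    (F : MvPolynomial (Fin (m + 1)) (𝓞 K)) : MvPolynomial (Fin m) K :=
  eval₂ (C.comp (algebraMap (𝓞 K) K)) (Fin.cons 1 X) F

variable {K : Type} [Field K] [NumberField K] {m : ℕ}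

lemma deh_mul (F G : MvPolynomial (Fin (m + 1)) (𝓞 K)) : deh (F * G) = deh F * deh G :=
  eval₂_mul _ _

lemma deh_add (F G : MvPolynomial (Fin (m + 1)) (𝓞 K)) : deh (F + G) = deh F + deh G :=
  eval₂_add _ _

lemma deh_C (a : 𝓞 K) : deh (C a : MvPolynomial (Fin (m + 1)) (𝓞 K)) = C (algebraMap (𝓞 K) K a) :=
  eval₂_C _ _ _

lemma deh_X0 : deh (X 0 : MvPolynomial (Fin (m + 1)) (𝓞 K)) = 1 := by
  unfold deh
  rw [eval₂_X, Fin.cons_zero]

lemma deh_Xs (i : Fin m) : deh (X i.succ : MvPolynomial (Fin (m + 1)) (𝓞 K)) = X i := by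
  unfold deh
  rw [eval₂_X, Fin.cons_succ]

lemma deh_one : deh (1 : MvPolynomial (Fin (m + 1)) (𝓞 K)) = 1 := by
  unfold deh
  exact eval₂_one _ _

/-- the affine equation factors through `K` -/
noncomputable def dehK : MvPolynomial (Fin (m + 1)) K →ₐ[K] MvPolynomial (Fin m) K :=
  aeval (Fin.cons 1 X)

lemma dehK_map (F : MvPolynomial (Fin (m + 1)) (𝓞 K)) :
    dehK (map (algebraMap (𝓞 K) K) F) = deh F := by
  unfold dehK deh
  rw [aeval_def, eval₂_map]
  rfl

lemma deh_dvd {F G : MvPolynomial (Fin (m + 1)) (𝓞 K)}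
    (h : map (algebraMap (𝓞 K) K) F ∣ map (algebraMap (𝓞 K) K) G) : deh F ∣ deh G := by
  rw [← dehK_map, ← dehK_map]
  exact map_dvd dehK h

/-- homogenisation, denominators cleared -/
theorem exists_hom (g : MvPolynomial (Fin m) K) : ∃ D : ℕ, ∀ e : ℕ, D ≤ e →
    ∃ (H : MvPolynomial (Fin (m + 1)) (𝓞 K)) (a : 𝓞 K), a ≠ 0 ∧ H.IsHomogeneous e ∧
      deh H = C (algebraMap (𝓞 K) K a) * g := by
  induction g using MvPolynomial.induction_on with
  | C c =>
    obtain ⟨b, a, ha, hab⟩ := IsFractionRing.div_surjective (A := 𝓞 K) c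
    refine ⟨0, fun e _ => ⟨C b * X 0 ^ e, a, nonZeroDivisors.ne_zero ha, ?_, ?_⟩⟩
    · have := (isHomogeneous_C (Fin (m + 1)) b).mul ((isHomogeneous_X (𝓞 K) (0 : Fin (m + 1))).pow e)
      rw [zero_add, one_mul] at this
      exact this
    · have h1 : ∀ n : ℕ, deh ((X 0 : MvPolynomial (Fin (m + 1)) (𝓞 K)) ^ n) = 1 := by
        intro n
        induction n with
        | zero => rw [pow_zero, deh_one]
        | succ n ih => rw [pow_succ, deh_mul, ih, deh_X0, one_mul]
      rw [deh_mul, deh_C, h1, mul_one, ← C_mul]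
      congr 1
      have h2 : algebraMap (𝓞 K) K a ≠ 0 := by
        rw [Ne, FaithfulSMul.algebraMap_eq_zero_iff]
        exact nonZeroDivisors.ne_zero ha
      rw [← hab]
      field_simp
  | add p q hp hq =>
    obtain ⟨D, hD⟩ := hp
    obtain ⟨D', hD'⟩ := hq
    refine ⟨max D D', fun e he => ?_⟩
    obtain ⟨H, a, ha, hH, h1⟩ := hD e ((le_max_left _ _).trans he)
    obtain ⟨H', a', ha', hH', h1'⟩ := hD' e ((le_max_right _ _).trans he)
    refine ⟨C a' * H + C a * H', a * a', mul_ne_zero ha ha', ?_, ?_⟩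
    · have e1 := (isHomogeneous_C (Fin (m + 1)) a').mul hH
      have e2 := (isHomogeneous_C (Fin (m + 1)) a).mul hH'
      rw [zero_add] at e1 e2
      exact e1.add e2
    · rw [deh_add, deh_mul, deh_mul, deh_C, deh_C, h1, h1', map_mul, C_mul]
      ring
  | mul_X p i hp =>
    obtain ⟨D, hD⟩ := hp
    refine ⟨D + 1, fun e he => ?_⟩
    obtain ⟨H, a, ha, hH, h1⟩ := hD (e - 1) (by omega)
    refine ⟨H * X i.succ, a, ha, ?_, ?_⟩
    · have := hH.mul (isHomogeneous_X (𝓞 K) i.succ)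
      rwa [Nat.sub_add_cancel (by omega : 1 ≤ e)] at this
    · rw [deh_mul, deh_Xs, h1, mul_assoc]

/-- the value of a form and of its affine equation -/
lemma deh_eval {F : MvPolynomial (Fin (m + 1)) (𝓞 K)} {κ : ℕ} (hF : F.IsHomogeneous κ)
    {x : Fin (m + 1) → K} (hx : x 0 ≠ 0) :
    aeval x F = x 0 ^ κ * eval (fun i : Fin m => x i.succ / x 0) (deh F) := by
  have h1 : eval (fun i : Fin m => x i.succ / x 0) (deh F) = aeval (fun j => x j / x 0) F := by
    unfold deh
    rw [eval₂_eq, map_sum, aeval_def, eval₂_eq]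
    refine Finset.sum_congr rfl fun d _ => ?_
    rw [map_mul, map_prod, RingHom.comp_apply, eval_C]
    congr 1
    refine Finset.prod_congr rfl fun j _ => ?_
    rw [map_pow]
    congr 1
    refine Fin.cases ?_ (fun i => ?_) j
    · rw [Fin.cons_zero, map_one, div_self hx]
    · rw [Fin.cons_succ, eval_X]
  rw [h1, aeval_def, aeval_def, eval₂_eq, eval₂_eq, Finset.mul_sum]
  refine Finset.sum_congr rfl fun d hd => ?_
  have hdeg : ∑ i ∈ d.support, d i = κ := by
    by_contra hne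
    have h2 := hF.coeff_eq_zero (d := d) (by rw [Finsupp.degree_apply]; exact hne)
    exact (mem_support_iff.1 hd) h2
  have h3 : ∏ i ∈ d.support, (x i / x 0) ^ d i = (∏ i ∈ d.support, x i ^ d i) / x 0 ^ κ := by
    rw [← hdeg, ← Finset.prod_pow_eq_pow_sum, ← Finset.prod_div_distrib]
    exact Finset.prod_congr rfl fun i _ => div_pow _ _ _
  rw [h3]
  have h4 : x 0 ^ κ ≠ 0 := pow_ne_zero _ hx
  field_simp

end Pool.Agent.N752.CP
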