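import Mathlib
import Pool.Agent.N752.CP.Hom
import Pool.Agent.N752.CP.Cnt
import Pool.Agent.N753.AC.Disc
import Pool.Agent.N459.AC.NRM

/-!
One cover of projective space: the discriminant and the truncated counting function.
-/

set_option autoImplicit false
set_option linter.unusedSectionVars false

namespace Pool.Agent.N752.CP

open NumberField IsDedekindDomain MvPolynomial Module Height
open Pool.Agent.H691R3 (fv fv_na fv_support_finite log_fv Nv log_Nv_pos)
open Pool.Agent.N752.HY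
open Pool.Agent.N752.HY.Ext
open Pool.Agent.N753.AC (SheetsLE StmNRM StmRAM Ab ab_unique disc_bound)

variable {K : Type} [Field K] [NumberField K] {m : ℕ}

/-- the prime `w`: the affine coordinates are integral and the point meets the divisor -/
def Hit {r : ℕ} {A : Type} [CommRing A] (f : Fin r → MvPolynomial (Fin m) K)
    (Y : Fin r → Finset A) (z : Fin m → K) {L : Type} [Field L] [NumberField L] [Algebra K L]
    (φ : A →+* L) (w : HeightOneSpectrum (𝓞 L)) : Prop :=
  (∀ i, FinitePlace.mk w (algebraMap K L (z i)) ≤ 1) ∧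
    ∃ j, FinitePlace.mk w (algebraMap K L (eval z (f j))) < 1 ∧
      ∀ y ∈ Y j, FinitePlace.mk w (φ y) < 1

theorem hit_finite {r : ℕ} {A : Type} [CommRing A] (f : Fin r → MvPolynomial (Fin m) K)
    (Y : Fin r → Finset A) {z : Fin m → K} (hz : ∀ j, eval z (f j) ≠ 0)
    {L : Type} [Field L] [NumberField L] [Algebra K L] (φ : A →+* L) :
    {w | Hit f Y z φ w}.Finite := by
  refine (Set.finite_iUnion fun j => fv_support_finite (K := L)
    (x := algebraMap K L (eval z (f j))) ?_).subset ?_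
  · rw [Ne, map_eq_zero]
    exact hz j
  · rintro w ⟨-, j, hw, -⟩
    exact Set.mem_iUnion.2 ⟨j, hw.ne⟩

/-- a factor of a form which is not met is not met -/
lemma lam_factor {P Q : MvPolynomial (Fin (m + 1)) (𝓞 K)} {a b : ℕ} (hP : P.IsHomogeneous a)
    (hQ : Q.IsHomogeneous b) {x : Fin (m + 1) → K} (hx : x ≠ 0) (h0 : aeval x (P * Q) ≠ 0)
    (v : HeightOneSpectrum (𝓞 K)) (h : ¬ 0 < lam K (P * Q) (a + b) x v) :
    lam K P a x v = 0 := by
  have hPQ := h0
  rw [map_mul] at hPQ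
  have hP0 : aeval x P ≠ 0 := left_ne_zero_of_mul hPQ
  have hQ0 : aeval x Q ≠ 0 := right_ne_zero_of_mul hPQ
  have e1 := lam_sub (L := K) (κ := a + b) hx h0 v
  have e2 := lam_sub (L := K) (κ := a) hx hP0 v
  have e3 := lam_sub (L := K) (κ := b) hx hQ0 v
  have n2 := lam_nonneg (L := K) hP hP0 v
  have n3 := lam_nonneg (L := K) hQ hQ0 v
  have e4 : Real.log (fv v (algebraMap K K (aeval x (P * Q)))) =
      Real.log (fv v (algebraMap K K (aeval x P))) +
        Real.log (fv v (algebraMap K K (aeval x Q))) := by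
    rw [map_mul, map_mul, map_mul, Real.log_mul]
    · exact ((fv v).pos ((map_ne_zero _).2 hP0)).ne'
    · exact ((fv v).pos ((map_ne_zero _).2 hQ0)).ne'
  rw [not_lt] at h
  rw [e4] at e1
  push_cast at e1
  linarith

/-- the absolute value of the value of a form which is not met -/
lemma fv_of_lam {P : MvPolynomial (Fin (m + 1)) (𝓞 K)} {a : ℕ} {x : Fin (m + 1) → K} (hx : x ≠ 0)
    (hP0 : aeval x P ≠ 0) (v : HeightOneSpectrum (𝓞 K)) (c : ℝ) (h : lam K P a x v = c) :
    fv v (aeval x P) = (⨆ j, fv v (x j)) ^ a * Real.exp (-c) := by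
  have e2 := lam_sub (L := K) (κ := a) hx hP0 v
  have hid : ∀ z : K, algebraMap K K z = z := fun z => rfl
  simp only [hid] at e2
  have hs : 0 < ⨆ i, fv v (x i) := sup_pos' (fv v) hx
  have hp : 0 < fv v (aeval x P) := (fv v).pos hP0
  have h1 : Real.log (fv v (aeval x P)) = a * Real.log (⨆ j, fv v (x j)) - c := by linarith
  rw [← Real.exp_log hp, h1, sub_eq_add_neg, Real.exp_add, ← Real.log_pow,
    Real.exp_log (pow_pos hs _)]

open Classical in
/-- **one cover** -/
theorem cover (hRAM : StmRAM) (hNRM : StmNRM)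
    (A : Type) [CommRing A] [IsDomain A] [IsIntegrallyClosed A]
    [Algebra (MvPolynomial (Fin m) K) A] [FaithfulSMul (MvPolynomial (Fin m) K) A]
    [Module.Finite (MvPolynomial (Fin m) K) A]
    {r : ℕ} (F : Fin r → MvPolynomial (Fin (m + 1)) (𝓞 K)) (κ : Fin r → ℕ)
    (Y : Fin r → Finset A) (s : Fin r → ℕ) (hhom : ∀ j, (F j).IsHomogeneous (κ j))
    (hirr : ∀ j, Irreducible (map (algebraMap (𝓞 K) K) (F j)))
    (hdi : ∀ j, Irreducible (deh (F j)))
    (hFF : ∀ i j, i ≠ j →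
      ¬ Associated (map (algebraMap (𝓞 K) K) (F i)) (map (algebraMap (𝓞 K) K) (F j)))
    (hs : ∀ j, SheetsLE A (deh (F j)) (Y j) (s j)) :
    ∃ (G : Fin r → MvPolynomial (Fin (m + 1)) (𝓞 K)) (e : Fin r → ℕ)
      (Bad : Finset (HeightOneSpectrum (𝓞 K))), (∀ j, (G j).IsHomogeneous (e j)) ∧
      (∀ j, ¬ map (algebraMap (𝓞 K) K) (F j) ∣ map (algebraMap (𝓞 K) K) (G j)) ∧
      ∀ x : Fin (m + 1) → K, x 0 ≠ 0 → (∀ j, aeval x (F j) ≠ 0) → (∀ j, aeval x (G j) ≠ 0) →
      ∀ (L : Type) [Field L] [NumberField L] [Algebra K L] (φ : A →+* L), Function.Surjective φ →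
        Module.finrank K L = Module.finrank (MvPolynomial (Fin m) K) A →
        (∀ f : MvPolynomial (Fin m) K, φ (algebraMap (MvPolynomial (Fin m) K) A f) =
          algebraMap K L (eval (fun i => x i.succ / x 0) f)) →
        ∑ j, ((Module.finrank K L : ℝ) - s j) *
          ∑ v ∈ good (F j) (G j) (κ j) (e j) Bad x, Real.log (Ideal.absNorm v.asIdeal) ≤
          Real.log |(discr L : ℝ)| +
            ∑ᶠ w : HeightOneSpectrum (𝓞 L), if Hit (fun j => deh (F j)) Y
              (fun i => x i.succ / x 0) φ w then Real.log (Ideal.absNorm w.asIdeal) else 0 := by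
  choose g' Bad' hg' hsp using fun j => hNRM K m A (deh (F j)) (Y j) (s j) (hdi j) (hs j)
  choose D hD using fun j => exists_hom (K := K) (g' j)
  choose H a ha hH hHg using fun j => hD j (D j) le_rfl
  have hX0 : Irreducible (map (algebraMap (𝓞 K) K) (X 0 : MvPolynomial (Fin (m + 1)) (𝓞 K))) := by
    rw [map_X]
    exact (MvPolynomial.X_prime (R := K) (i := (0 : Fin (m + 1)))).irreducible
  have haf : ∀ j, {v : HeightOneSpectrum (𝓞 K) | fv v (algebraMap (𝓞 K) K (a j)) ≠ 1}.Finite :=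
    fun j => fv_support_finite (by
      rw [Ne, FaithfulSMul.algebraMap_eq_zero_iff]
      exact ha j)
  obtain ⟨Bad, hBad⟩ : ∃ Bad : Finset (HeightOneSpectrum (𝓞 K)), Bad =
    Finset.univ.biUnion Bad' ∪ Finset.univ.biUnion fun j => (haf j).toFinset := ⟨_, rfl⟩
  obtain ⟨R, hR⟩ : ∃ R : Fin r → MvPolynomial (Fin (m + 1)) (𝓞 K),
      ∀ j, R j = ∏ i ∈ Finset.univ.erase j, F i := ⟨_, fun _ => rfl⟩
  have hRh : ∀ j, (R j).IsHomogeneous (∑ i ∈ Finset.univ.erase j, κ i) := by
    intro j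
    rw [hR]
    exact IsHomogeneous.prod _ _ _ fun i _ => hhom i
  obtain ⟨G, hG⟩ : ∃ G : Fin r → MvPolynomial (Fin (m + 1)) (𝓞 K),
      ∀ j, G j = H j * (X 0 * R j) := ⟨_, fun _ => rfl⟩
  have hXR : ∀ j, (X 0 * R j).IsHomogeneous (1 + ∑ i ∈ Finset.univ.erase j, κ i) := fun j =>
    (isHomogeneous_X _ _).mul (hRh j)
  have hGh : ∀ j, (G j).IsHomogeneous (D j + (1 + ∑ i ∈ Finset.univ.erase j, κ i)) := by
    intro j
    rw [hG]
    exact (hH j).mul (hXR j)
  refine ⟨G, fun j => D j + (1 + ∑ i ∈ Finset.univ.erase j, κ i), Bad, hGh, ?_, ?_⟩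
  · intro j hd
    rw [hG, map_mul, map_mul, hR, map_prod] at hd
    rcases (hirr j).prime.dvd_or_dvd hd with h | h
    · have h1 := deh_dvd h
      rw [hHg] at h1
      have hu : IsUnit (C (algebraMap (𝓞 K) K (a j)) : MvPolynomial (Fin m) K) := by
        refine IsUnit.map C (isUnit_iff_ne_zero.2 ?_)
        rw [Ne, FaithfulSMul.algebraMap_eq_zero_iff]
        exact ha j
      exact hg' j ((hu.dvd_mul_left).1 h1)
    rcases (hirr j).prime.dvd_or_dvd h with h | h
    · have h1 := deh_dvd (F := F j) (G := X 0) h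
      rw [deh_X0] at h1
      exact (hdi j).not_isUnit (isUnit_of_dvd_one h1)
    · obtain ⟨i, hi, h3⟩ := ((hirr j).prime.dvd_finsetProd_iff _).1 h
      exact hFF j i (Finset.ne_of_mem_erase hi).symm ((hirr j).associated_of_dvd (hirr i) h3)
  intro x hx0 hxF hxG L _ _ _ φ hsurj hfr hcomp
  have hx : x ≠ 0 := fun h => hx0 (by rw [h]; rfl)
  obtain ⟨z, hz⟩ : ∃ z : Fin m → K, z = fun i => x i.succ / x 0 := ⟨_, rfl⟩
  rw [← hz] at hcomp ⊢
  have hval : ∀ {P : MvPolynomial (Fin (m + 1)) (𝓞 K)} {b : ℕ}, P.IsHomogeneous b →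
      aeval x P = x 0 ^ b * eval z (deh P) := by
    intro P b hP
    rw [hz]
    exact deh_eval hP hx0
  -- the good primes
  obtain ⟨V, hV⟩ : ∃ V : Fin r → Finset (HeightOneSpectrum (𝓞 K)), ∀ j, V j =
    good (F j) (G j) (κ j) (D j + (1 + ∑ i ∈ Finset.univ.erase j, κ i)) Bad x := ⟨_, fun _ => rfl⟩
  have hVmem : ∀ j, ∀ v ∈ V j, v ∉ Bad ∧ (∀ i, FinitePlace.mk v (z i) ≤ 1) ∧
      FinitePlace.mk v (eval z (deh (F j))) = (Ideal.absNorm v.asIdeal : ℝ)⁻¹ ∧
      FinitePlace.mk v (eval z (g' j)) = 1 ∧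
      ∀ i, i ≠ j → FinitePlace.mk v (eval z (deh (F i))) = 1 := by
    intro j v hv
    rw [hV, mem_good hx (hxF j)] at hv
    obtain ⟨c1, c2, c3, c4⟩ := hv
    have hxG' := hxG j
    rw [hG] at c4 hxG'
    have hs0 : 0 < ⨆ i, fv v (x i) := sup_pos' (fv v) hx
    -- the coordinate
    have d1 : lam K (X 0 : MvPolynomial (Fin (m + 1)) (𝓞 K)) 1 x v = 0 := by
      have e1 : H j * (X 0 * R j) = X 0 * (H j * R j) := by ring
      have e2 : D j + (1 + ∑ i ∈ Finset.univ.erase j, κ i) =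
        1 + (D j + ∑ i ∈ Finset.univ.erase j, κ i) := by ring
      rw [e1, e2] at c4
      rw [e1] at hxG'
      exact lam_factor (isHomogeneous_X _ _) ((hH j).mul (hRh j)) hx hxG' v c4
    have d2 : lam K (H j) (D j) x v = 0 := lam_factor (hH j) (hXR j) hx hxG' v c4
    have d3 : ∀ i, i ≠ j → lam K (F i) (κ i) x v = 0 := by
      intro i hij
      have hi : i ∈ Finset.univ.erase j := Finset.mem_erase.2 ⟨hij, Finset.mem_univ _⟩
      have e0 : R j = F i * ∏ l ∈ (Finset.univ.erase j).erase i, F l := by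
        rw [hR, Finset.mul_prod_erase _ _ hi]
      have e1 : H j * (X 0 * R j) = F i * (H j * (X 0 * ∏ l ∈ (Finset.univ.erase j).erase i, F l)) := by
        rw [e0]
        ring
      have e2 : D j + (1 + ∑ i ∈ Finset.univ.erase j, κ i) =
          κ i + (D j + (1 + ∑ l ∈ (Finset.univ.erase j).erase i, κ l)) := by
        rw [← Finset.add_sum_erase _ _ hi]
        ring
      rw [e1, e2] at c4
      rw [e1] at hxG'
      exact lam_factor (hhom i) ((hH j).mul ((isHomogeneous_X _ _).mul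
        (IsHomogeneous.prod _ _ _ fun i _ => hhom i))) hx hxG' v c4
    have hxX : aeval x (X 0 : MvPolynomial (Fin (m + 1)) (𝓞 K)) ≠ 0 := by
      rw [aeval_X]
      exact hx0
    have b1 := fv_of_lam hx hxX v 0 d1
    rw [neg_zero, Real.exp_zero, mul_one, pow_one, aeval_X] at b1
    have hx0v : 0 < fv v (x 0) := (fv v).pos hx0
    have hxH : aeval x (H j) ≠ 0 := by
      rw [map_mul] at hxG'
      exact left_ne_zero_of_mul hxG'
    have b2 := fv_of_lam hx hxH v 0 d2
    rw [neg_zero, Real.exp_zero, mul_one, ← b1, hval (hH j), map_mul, map_pow, hHg, map_mul,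
      eval_C, map_mul] at b2
    have b2' : fv v (algebraMap (𝓞 K) K (a j)) * fv v (eval z (g' j)) = 1 := by
      have h1 : fv v (x 0) ^ D j ≠ 0 := (pow_pos hx0v _).ne'
      exact mul_left_cancel₀ h1 (by rw [b2, mul_one])
    have b3 : fv v (algebraMap (𝓞 K) K (a j)) = 1 := by
      by_contra hcon
      apply c2
      rw [hBad]
      exact Finset.mem_union_right _ (Finset.mem_biUnion.2 ⟨j, Finset.mem_univ _, by
        rw [Set.Finite.mem_toFinset]; exact hcon⟩)
    rw [b3, one_mul] at b2'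
    refine ⟨c2, ?_, ?_, b2', ?_⟩
    · intro i
      have h1 : fv v (x i.succ) ≤ ⨆ j, fv v (x j) :=
        le_ciSup (f := fun j => fv v (x j)) (Set.finite_range _).bddAbove _
      show fv v (z i) ≤ 1
      rw [hz]
      show fv v (x i.succ / x 0) ≤ 1
      rw [map_div₀, div_le_one hx0v, b1]
      exact h1
    · have b4 := fv_of_lam hx (hxF j) v _ c3
      rw [← b1, hval (hhom j), map_mul, map_pow] at b4
      have h1 : fv v (x 0) ^ κ j ≠ 0 := (pow_pos hx0v _).ne'
      have b5 := mul_left_cancel₀ h1 b4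
      show fv v (eval z (deh (F j))) = _
      rw [b5, Real.exp_neg, Real.exp_log]
      have hN := log_Nv_pos v
      by_contra hcon
      rw [not_lt] at hcon
      have h4 : (0 : ℝ) ≤ (Ideal.absNorm v.asIdeal : ℝ) := Nat.cast_nonneg _
      have h5 : Real.log (Nv v) = Real.log (Ideal.absNorm v.asIdeal : ℝ) := rfl
      rw [h5, le_antisymm hcon h4, Real.log_zero] at hN
      exact lt_irrefl _ hN
    · intro i hij
      have b4 := fv_of_lam hx (hxF i) v _ (d3 i hij)
      rw [neg_zero, Real.exp_zero, mul_one, ← b1, hval (hhom i), map_mul, map_pow] at b4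
      have h1 : fv v (x 0) ^ κ i ≠ 0 := (pow_pos hx0v _).ne'
      show fv v (eval z (deh (F i))) = 1
      exact mul_left_cancel₀ h1 (b4.trans (mul_one _).symm)
  have hNlt : ∀ v : HeightOneSpectrum (𝓞 K), (Ideal.absNorm v.asIdeal : ℝ)⁻¹ < 1 := by
    intro v
    have hN := log_Nv_pos v
    have h5 : Real.log (Nv v) = Real.log (Ideal.absNorm v.asIdeal : ℝ) := rfl
    rw [h5] at hN
    have h6 : (1 : ℝ) < (Ideal.absNorm v.asIdeal : ℝ) :=
      (Real.log_pos_iff (Nat.cast_nonneg _)).1 hN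
    exact inv_lt_one_of_one_lt₀ h6
  have hdisj : ∀ i j, i ≠ j → Disjoint (V i) (V j) := by
    intro i j hij
    refine Finset.disjoint_left.2 fun v hv hv' => ?_
    obtain ⟨-, -, c3, -, -⟩ := hVmem i v hv
    obtain ⟨-, -, -, -, c6⟩ := hVmem j v hv'
    have h1 := c6 i hij
    rw [c3] at h1
    exact absurd h1 (hNlt v).ne
  have hzF : ∀ j, eval z (deh (F j)) ≠ 0 := by
    intro j h0
    apply hxF j
    rw [hval (hhom j), h0, mul_zero]
  have hmain := disc_bound (K := K) (L := L) hRAM V hdisj s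
    (fun j w => ∀ y ∈ Y j, FinitePlace.mk w (φ y) < 1) (by
      intro j v hv
      obtain ⟨c1, c2, c3, c5, c6⟩ := hVmem j v hv
      obtain ⟨ζ, hζ1, hζ2⟩ := hsp j L φ z hsurj hfr hcomp v (fun h => c1 (by
        rw [hBad]
        exact Finset.mem_union_left _ (Finset.mem_biUnion.2 ⟨j, Finset.mem_univ _, h⟩))) c2 c3 c5
      refine ⟨ζ, hζ1, fun w hw => ?_⟩
      obtain ⟨d1, d2, d3⟩ := hζ2 w hw
      refine ⟨d1, fun hcon => d3 ?_⟩
      push Not at hcon
      obtain ⟨y, hy, hy1⟩ := hcon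
      exact ⟨y, hy, le_antisymm (d2 y hy) hy1⟩) (Hit (fun j => deh (F j)) Y z φ) (by
      intro j v hv w hw hc
      obtain ⟨c1, c2, c3, c5, c6⟩ := hVmem j v hv
      refine ⟨?_, j, ?_, hc⟩
      · intro i
        exact (Pool.Agent.N459.AC.above hw (c2 i)).1
      · exact (Pool.Agent.N459.AC.above hw (c3.trans_lt (hNlt v)).le).2.1 (c3.trans_lt (hNlt v)))
    (hit_finite _ Y hzF φ)
  simp only [hV] at hmain
  exact hmain

end Pool.Agent.N752.CP
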