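import Mathlib
import Pool.Agent.N752.HY.KPts
import Pool.Agent.N752.HY.Prx
import Pool.Agent.N752.HY.Pl1
import Pool.Agent.N752.HY.Pl2

/-!
One exceptional set for countably many properties of the points over one field.
-/

set_option autoImplicit false

namespace Pool.Agent.N752.CP

open NumberField IsDedekindDomain MvPolynomial Module Height
open scoped LinearAlgebra.Projectivization
open Pool.Agent.N752.SU (DensityZero diag)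
open Pool.Agent.N752.HY
open Pool.Agent.N752.HY.KPts

variable {K : Type} [Field K] [NumberField K] {m : ℕ}

theorem unpK (hm : 1 ≤ m) (ι : Type) [Countable ι] [Nonempty ι]
    (P : ι → ℙ K (Fin (m + 1) → K) → Prop) (hP : ∀ i, AA (P i)) :
    ∃ E₀ : Set (ℙ K (Fin (m + 1) → K)), DensityZero (Pts K m) E₀ ∧
      ∀ i, ∃ T : ℝ, ∀ Q : ℙ K (Fin (m + 1) → K), Q ∉ E₀ → T < hgt Q.rep → P i Q := by
  classical
  obtain ⟨f, hf⟩ := exists_surjective_nat ι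
  obtain ⟨E₀, hE₀, hall⟩ := diag (Pts K m) pts_mono pts_fin (fun i => {Q | ¬ P (f i) Q})
    fun i => dens_of_aa hm (hP (f i))
  refine ⟨E₀, hE₀, fun j => ?_⟩
  obtain ⟨i, rfl⟩ := hf j
  obtain ⟨T, hT⟩ := hall i
  refine ⟨T, fun Q hQE hTQ => ?_⟩
  by_contra hbad
  refine hQE (hT Q hbad ?_)
  intro hh
  exact absurd (show hgt Q.rep ≤ T from hh) (not_le.2 hTQ)

/-- one exceptional set for all proximity functions -/
theorem prxK (hPL1 : S_PL1) (hPL2 : S_PL2) (hm : 1 ≤ m) :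
    ∃ E₀ : Set (ℙ K (Fin (m + 1) → K)), DensityZero (Pts K m) E₀ ∧
      ∀ (κ : ℕ) (F : MvPolynomial (Fin (m + 1)) (𝓞 K)), F.IsHomogeneous κ → F ≠ 0 →
      ∀ S : Finset ℕ, (∀ p ∈ S, p.Prime) → ∀ δ : ℝ, 0 < δ →
      ∃ T : ℝ, ∀ Q : ℙ K (Fin (m + 1) → K), Q ∉ E₀ → T < hgt Q.rep →
        aeval Q.rep F ≠ 0 ∧ prox K S F κ Q.rep ≤ δ * hgt Q.rep := by
  classical
  have hcount := countable_poly K m
  obtain ⟨E₀, hE₀, h⟩ := unpK (K := K) hm (ℕ × MvPolynomial (Fin (m + 1)) (𝓞 K) × Finset ℕ × ℕ)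
    (fun i Q => (i.2.1.IsHomogeneous i.1 ∧ i.2.1 ≠ 0 ∧ ∀ p ∈ i.2.2.1, p.Prime) →
      aeval Q.rep i.2.1 ≠ 0 ∧ prox K i.2.2.1 i.2.1 i.1 Q.rep ≤
        1 / ((i.2.2.2 : ℝ) + 1) * hgt Q.rep) (by
      intro i
      by_cases hi : i.2.1.IsHomogeneous i.1 ∧ i.2.1 ≠ 0 ∧ ∀ p ∈ i.2.2.1, p.Prime
      · exact (Prx.prx hPL1 hPL2 i.1 i.2.1 hi.1 hi.2.1 i.2.2.1 hi.2.2
          (δ := 1 / ((i.2.2.2 : ℝ) + 1)) (by positivity)).mono fun Q hQ _ => hQ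
      · exact AA.triv.mono fun Q _ hc => absurd hc hi)
  refine ⟨E₀, hE₀, fun κ F hF hF0 S hS δ hδ => ?_⟩
  obtain ⟨n, hn⟩ : ∃ n : ℕ, 1 / ((n : ℝ) + 1) < δ := exists_nat_one_div_lt hδ
  obtain ⟨T, hT⟩ := h (κ, F, S, n)
  refine ⟨T, fun Q hQ hTQ => ?_⟩
  obtain ⟨h1, h2⟩ := hT Q hQ hTQ ⟨hF, hF0, hS⟩
  exact ⟨h1, h2.trans (mul_le_mul_of_nonneg_right hn.le (hgt0 _))⟩

end Pool.Agent.N752.CP
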