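import Mathlib
import Pool.Agent.N752.CP.Unp
import Pool.Agent.N752.CP.Cov

/-!
All covers of projective space at once.
-/

set_option autoImplicit false
set_option linter.unusedSectionVars false

namespace Pool.Agent.N752.CP

open NumberField IsDedekindDomain MvPolynomial Module Height
open scoped LinearAlgebra.Projectivization
open Pool.Agent.N752.SU (DensityZero)
open Pool.Agent.N752.HY
open Pool.Agent.N752.HY.KPts (Pts AdmK univK)
open Pool.Agent.N753.AC (SheetsLE StmNRM StmRAM)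
open Pool.Agent.R366.NF (idealHeight)

variable {K : Type} [Field K] [NumberField K] {m : ℕ}

/-- the union of two sets of density zero -/
lemma dens_union {A B : Set (ℙ K (Fin (m + 1) → K))} (hA : DensityZero (Pts K m) A)
    (hB : DensityZero (Pts K m) B) : DensityZero (Pts K m) (A ∪ B) := by
  intro ε hε
  obtain ⟨a, ha⟩ := hA (ε / 2) (by positivity)
  obtain ⟨b, hb⟩ := hB (ε / 2) (by positivity)
  refine ⟨max a b, fun T hT => ?_⟩
  have h1 := ha T ((le_max_left _ _).trans hT)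
  have h2 := hb T ((le_max_right _ _).trans hT)
  have h3 : (((A ∪ B) ∩ Pts K m T).ncard : ℝ) ≤ (A ∩ Pts K m T).ncard + (B ∩ Pts K m T).ncard := by
    rw [Set.union_inter_distrib_right]
    exact_mod_cast Set.ncard_union_le _ _
  linarith

/-- full weight: degree at most two, or a product of linear forms of large rank -/
def FullW (f : MvPolynomial (Fin (m + 1)) ℂ) (κ : ℕ) : Prop :=
  κ ≤ 2 ∨ ∃ a : Fin κ → Fin (m + 1) → ℂ, f = ∏ i, ∑ j, C (a i j) * X j ∧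
    κ < 3 * finrank ℂ (Submodule.span ℂ (Set.range a))

lemma hasW_of_full {f : MvPolynomial (Fin (m + 1)) ℂ} {κ : ℕ} (h : FullW f κ) : HasW f κ κ := by
  rcases h with h | ⟨a, h1, h2⟩
  · exact Or.inr (Or.inl ⟨le_rfl, h⟩)
  · refine Or.inr (Or.inr ⟨a, h1, ?_⟩)
    unfold W2
    rw [if_pos h2]

open Classical in
/-- the inequality at the point `Q` for one cover -/
def Concl (A : Type) [CommRing A] [IsDomain A] [Algebra (MvPolynomial (Fin m) K) A] {r t : ℕ}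
    (F : Fin r → MvPolynomial (Fin (m + 1)) (𝓞 K)) (κ : Fin r → ℕ) (Y : Fin r → Finset A)
    (s : Fin r → ℕ) (d : ℕ) (R : MvPolynomial (Fin (m + 1)) (𝓞 K)) (S' : Finset ℕ)
    (F' G' : Fin t → MvPolynomial (Fin (m + 1)) (𝓞 K)) (κ' ε' : Fin t → ℕ) (M Λ : ℕ) (ε : ℝ)
    (Q : ℙ K (Fin (m + 1) → K)) : Prop :=
  Q.rep 0 ≠ 0 ∧ (∀ j, aeval Q.rep (F j) ≠ 0) ∧ aeval Q.rep R ≠ 0 ∧
    ∀ (L : Type) [Field L] [NumberField L] [Algebra K L] (ψ : A →+* L),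
      Function.Surjective ψ →
      Module.finrank K L = Module.finrank (MvPolynomial (Fin m) K) A →
      (∀ f : MvPolynomial (Fin m) K, ψ (algebraMap (MvPolynomial (Fin m) K) A f) =
        algebraMap K L (eval (fun i => Q.rep i.succ / Q.rep 0) f)) →
      ((∑ j, (1 - (s j : ℝ) / Module.finrank (MvPolynomial (Fin m) K) A) * κ j) - ε) *
          hgt Q.rep + M * prox K S' R d Q.rep +
          Λ * ((∑ l, idealHeight (F' l) (G' l) (κ' l) (ε' l) Q.rep) / finrank ℚ K) ≤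
        (∑ᶠ w : HeightOneSpectrum (𝓞 L), if Hit (fun j => deh (F j)) Y
          (fun i => Q.rep i.succ / Q.rep 0) ψ w then
            Real.log (Ideal.absNorm w.asIdeal) else 0) / finrank ℚ L + ldisc L

/-- one component -/
def P1 (F G : MvPolynomial (Fin (m + 1)) (𝓞 K)) (κ e : ℕ) (δ : ℝ)
    (Q : ℙ K (Fin (m + 1) → K)) : Prop :=
  Good (fun _ : Fin 1 => F) (fun _ => κ) (fun _ : Fin 1 => F) (fun _ => G) (fun _ => κ)
    (fun _ => e) (1 : ℕ) ((κ : ℝ) - δ) Q.rep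

/-- the ideals -/
def P2 {t : ℕ} (F' G' : Fin t → MvPolynomial (Fin (m + 1)) (𝓞 K)) (κ' ε' : Fin t → ℕ) (Λ : ℕ)
    (δ : ℝ) (Q : ℙ K (Fin (m + 1) → K)) : Prop :=
  Good (fun i : Fin 0 => i.elim0) (fun i : Fin 0 => i.elim0) F' G' κ' ε' (Λ : ℝ) (-δ) Q.rep

open Classical in
theorem concl (hRAM : StmRAM) (hNRM : StmNRM)
    (A : Type) [CommRing A] [IsDomain A] [IsIntegrallyClosed A]
    [Algebra (MvPolynomial (Fin m) K) A] [FaithfulSMul (MvPolynomial (Fin m) K) A]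
    [Module.Finite (MvPolynomial (Fin m) K) A]
    {r : ℕ} (F : Fin r → MvPolynomial (Fin (m + 1)) (𝓞 K)) (κ : Fin r → ℕ)
    (Y : Fin r → Finset A) (s : Fin r → ℕ) (h1 : ∀ j, (F j).IsHomogeneous (κ j))
    (h2 : ∀ j, Irreducible (map (algebraMap (𝓞 K) K) (F j)))
    (h3 : ∀ j, Irreducible (deh (F j)))
    (h4 : ∀ i j, i ≠ j →
      ¬ Associated (map (algebraMap (𝓞 K) K) (F i)) (map (algebraMap (𝓞 K) K) (F j)))
    (h6 : ∀ j, SheetsLE A (deh (F j)) (Y j) (s j))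
    (h7 : ∀ j, s j ≤ Module.finrank (MvPolynomial (Fin m) K) A)
    (d : ℕ) (R : MvPolynomial (Fin (m + 1)) (𝓞 K)) (S' : Finset ℕ)
    {t : ℕ} (F' G' : Fin t → MvPolynomial (Fin (m + 1)) (𝓞 K)) (κ' ε' : Fin t → ℕ)
    (M Λ : ℕ) (ε : ℝ) (hε : 0 < ε) :
    ∃ (G : Fin r → MvPolynomial (Fin (m + 1)) (𝓞 K)) (e : Fin r → ℕ) (δ B : ℝ), 0 < δ ∧
      (∀ j, (G j).IsHomogeneous (e j)) ∧
      (∀ j, ¬ map (algebraMap (𝓞 K) K) (F j) ∣ map (algebraMap (𝓞 K) K) (G j)) ∧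
      ∀ Q : ℙ K (Fin (m + 1) → K), B < hgt Q.rep → (∀ j, P1 (F j) (G j) (κ j) (e j) δ Q) →
        P2 F' G' κ' ε' Λ δ Q → aeval Q.rep R ≠ 0 ∧ prox K S' R d Q.rep ≤ δ * hgt Q.rep →
        (∀ j, aeval Q.rep (G j) ≠ 0) → Q.rep 0 ≠ 0 →
        Concl A F κ Y s d R S' F' G' κ' ε' M Λ ε Q := by
  obtain ⟨G, e, Bad, k1, k2, k3⟩ := cover hRAM hNRM A F κ Y s h1 h2 h3 h4 h6
  obtain ⟨n, hn⟩ : ∃ n : ℝ, n = finrank ℚ K := ⟨_, rfl⟩
  have hn1 : 1 ≤ n := by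
    rw [hn]
    exact_mod_cast (finrank_pos (R := ℚ) (M := K))
  have hn0 : 0 < n := by linarith
  obtain ⟨N, hN⟩ : ∃ N : ℝ, N = Module.finrank (MvPolynomial (Fin m) K) A := ⟨_, rfl⟩
  have hq : ∀ j, 0 ≤ 1 - (s j : ℝ) / N ∧ 1 - (s j : ℝ) / N ≤ 1 := by
    intro j
    have h3 : (s j : ℝ) ≤ N := by
      rw [hN]
      exact_mod_cast h7 j
    have h4 : (0 : ℝ) ≤ N := by rw [hN]; exact Nat.cast_nonneg _
    have h6 : (0 : ℝ) ≤ s j := Nat.cast_nonneg _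
    constructor
    · rw [sub_nonneg]
      exact div_le_one_of_le₀ h3 h4
    · have := div_nonneg h6 h4
      linarith
  -- the parameter
  obtain ⟨δ, hδ⟩ : ∃ δ : ℝ, δ = ε / (4 * r + M + 4) := ⟨_, rfl⟩
  have hδ0 : 0 < δ := by rw [hδ]; positivity
  have hδε : δ * (4 * r + M + 4) = ε := by
    rw [hδ]
    have : (4 * (r : ℝ) + M + 4) ≠ 0 := by positivity
    field_simp
  choose C₀ hC₀ using fun j => cnt_good (h1 j) (k1 j) Bad
  choose C₂ hC₂ using fun j => Pool.Agent.N752.HY.Ovl.t_OVL K inferInstance inferInstance m (F j)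
    (G j) (κ j) (e j) (h1 j) (k1 j)
  obtain ⟨C₁, hC₁⟩ : ∃ C₁ : Fin r → ℝ, ∀ j, C₁ j = C₀ j + C₂ j := ⟨_, fun _ => rfl⟩
  refine ⟨G, e, δ, (∑ j, |C₁ j|) / δ, hδ0, k1, k2, ?_⟩
  intro Q hTQ hT₁' hT₂' hpr0 hxG hx0
  have hh0 : 0 ≤ hgt Q.rep := hgt0 _
  have q6 : ∑ j, |C₁ j| ≤ δ * hgt Q.rep := by
    have a6 := hTQ.le
    rw [div_le_iff₀ hδ0] at a6
    linarith
  have hT₁ : ∀ j, aeval Q.rep (F j) ≠ 0 ∧ ((κ j : ℝ) - δ) * hgt Q.rep + (1 : ℕ) *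
        ((∑ l : Fin 1, idealHeight (F j) (G j) (κ j) (e j) Q.rep) / finrank ℚ K) ≤
        cnt K ∅ (fun _ : Fin 1 => F j) (fun _ => κ j) Finset.univ Q.rep := fun j =>
    ⟨(hT₁' j).1 0, (hT₁' j).2⟩
  have hxF : ∀ j, aeval Q.rep (F j) ≠ 0 := fun j => (hT₁ j).1
  obtain ⟨hxR, hpr⟩ := hpr0
  refine ⟨hx0, hxF, hxR, ?_⟩
  intro L _ _ _ ψ hsurj hfr hcomp
  have hmain := k3 Q.rep hx0 hxF hxG L ψ hsurj hfr hcomp
  obtain ⟨TR, hTR⟩ : ∃ TR : ℝ, TR = ∑ᶠ w : HeightOneSpectrum (𝓞 L), if Hit (fun j => deh (F j)) Y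
    (fun i => Q.rep i.succ / Q.rep 0) ψ w then
      Real.log (Ideal.absNorm w.asIdeal : ℝ) else 0 := ⟨_, rfl⟩
  rw [← hTR] at hmain ⊢
  have hfrN : (Module.finrank K L : ℝ) = N := by
    rw [hN]
    exact_mod_cast hfr
  have hN0 : 0 < N := by
    rw [← hfrN]
    exact_mod_cast Module.finrank_pos
  have htow : (finrank ℚ L : ℝ) = n * N := by
    rw [hn, ← hfrN]
    exact_mod_cast (Module.finrank_mul_finrank ℚ K L).symm
  rw [hfrN] at hmain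
  rw [← hN]
  -- the components
  have hcomp1 : ∀ j, (n * ((κ j : ℝ) * hgt Q.rep)) - n * (2 * δ * hgt Q.rep) - |C₁ j| ≤
      ∑ v ∈ good (F j) (G j) (κ j) (e j) Bad Q.rep, Real.log (Ideal.absNorm v.asIdeal) := by
    intro j
    obtain ⟨-, a1⟩ := hT₁ j
    have a2 := hC₀ j Q.rep Q.rep_nonzero (hxF j) (hxG j)
    obtain ⟨a6, -⟩ := hC₂ j Q.rep Q.rep_nonzero (hxF j) (hxG j)
    rw [← hn] at a1 a2
    rw [Finset.univ_unique, Finset.sum_singleton, Nat.cast_one, one_mul] at a1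
    obtain ⟨I, hI⟩ : ∃ I : ℝ, I = idealHeight (F j) (G j) (κ j) (e j) Q.rep := ⟨_, rfl⟩
    obtain ⟨c, hc⟩ : ∃ c : ℝ, c = cnt K ∅ (fun _ : Fin 1 => F j) (fun _ => κ j) Finset.univ Q.rep :=
      ⟨_, rfl⟩
    rw [← hI] at a1 a2 a6
    rw [← Finset.univ_unique, ← hc] at a1
    rw [← hc] at a2
    have a3 := mul_le_mul_of_nonneg_left a1 hn0.le
    have a4 : n * (((κ j : ℝ) - δ) * hgt Q.rep + I / n) =
        n * ((κ j : ℝ) * hgt Q.rep) - n * (δ * hgt Q.rep) + I := by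
      field_simp
    rw [a4] at a3
    have a5 := le_abs_self (C₁ j)
    rw [hC₁] at a5
    have a7 : |C₀ j + C₂ j| = |C₁ j| := by rw [hC₁]
    have a8 : (κ j : ℝ) * (n * hgt Q.rep) = n * ((κ j : ℝ) * hgt Q.rep) := by ring
    have a9 : n * (2 * δ * hgt Q.rep) = 2 * (n * (δ * hgt Q.rep)) := by ring
    rw [a8] at a2
    rw [a9]
    linarith
  have hq2 : ∀ j, n * ((1 - (s j : ℝ) / N) * ((κ j : ℝ) * hgt Q.rep)) ≤
      ((N - s j) * ∑ v ∈ good (F j) (G j) (κ j) (e j) Bad Q.rep,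
        Real.log (Ideal.absNorm v.asIdeal)) / N + (n * (2 * δ * hgt Q.rep) + |C₁ j|) := by
    intro j
    have e1 := mul_le_mul_of_nonneg_left (hcomp1 j) (hq j).1
    have e2 : ((N - s j) * ∑ v ∈ good (F j) (G j) (κ j) (e j) Bad Q.rep,
        Real.log (Ideal.absNorm v.asIdeal)) / N =
        (1 - (s j : ℝ) / N) * ∑ v ∈ good (F j) (G j) (κ j) (e j) Bad Q.rep,
          Real.log (Ideal.absNorm v.asIdeal) := by
      field_simp
    have e3 : (1 - (s j : ℝ) / N) * (n * (2 * δ * hgt Q.rep) + |C₁ j|) ≤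
        n * (2 * δ * hgt Q.rep) + |C₁ j| :=
      mul_le_of_le_one_left (by positivity) (hq j).2
    rw [e2]
    have e4 : (1 - (s j : ℝ) / N) * (n * ((κ j : ℝ) * hgt Q.rep) - n * (2 * δ * hgt Q.rep) - |C₁ j|) =
        n * ((1 - (s j : ℝ) / N) * ((κ j : ℝ) * hgt Q.rep)) -
          (1 - (s j : ℝ) / N) * (n * (2 * δ * hgt Q.rep) + |C₁ j|) := by ring
    rw [e4] at e1
    linarith
  have hsum := Finset.sum_le_sum fun j (_ : j ∈ (Finset.univ : Finset (Fin r))) => hq2 j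
  rw [Finset.sum_add_distrib, ← Finset.sum_div, Finset.sum_add_distrib, Finset.sum_const,
    Finset.card_univ, Fintype.card_fin, nsmul_eq_mul] at hsum
  have hm2 : (∑ j, (N - s j) * ∑ v ∈ good (F j) (G j) (κ j) (e j) Bad Q.rep,
      Real.log (Ideal.absNorm v.asIdeal)) / N ≤ TR / N + Real.log |(discr L : ℝ)| / N := by
    rw [← add_div]
    refine div_le_div_of_nonneg_right ?_ hN0.le
    linarith
  have hdeg : ∑ j, n * ((1 - (s j : ℝ) / N) * ((κ j : ℝ) * hgt Q.rep)) =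
      n * ((∑ j, (1 - (s j : ℝ) / N) * κ j) * hgt Q.rep) := by
    rw [Finset.sum_mul, Finset.mul_sum]
    exact Finset.sum_congr rfl fun j _ => by ring
  rw [hdeg] at hsum
  -- the ideals and the proximity
  obtain ⟨-, i1⟩ := hT₂'
  have i2 : cnt K ∅ (fun i : Fin 0 => (i.elim0 : MvPolynomial (Fin (m + 1)) (𝓞 K)))
      (fun i => i.elim0) Finset.univ Q.rep = 0 := by
    unfold cnt
    rw [finsum_eq_zero_of_forall_eq_zero, zero_div]
    intro w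
    refine if_neg ?_
    rintro ⟨-, i, -⟩
    exact i.elim0
  rw [i2, ← hn] at i1
  have i3 : (M : ℝ) * prox K S' R d Q.rep ≤ M * (δ * hgt Q.rep) :=
    mul_le_mul_of_nonneg_left hpr (Nat.cast_nonneg _)
  -- division by `n`
  have f1 : (∑ j, (1 - (s j : ℝ) / N) * κ j) * hgt Q.rep ≤
      (TR / N + Real.log |(discr L : ℝ)| / N + (r * (n * (2 * δ * hgt Q.rep)) + ∑ j, |C₁ j|)) / n := by
    rw [le_div_iff₀ hn0]
    linarith
  have f2 : (TR / N + Real.log |(discr L : ℝ)| / N + (r * (n * (2 * δ * hgt Q.rep)) +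
      ∑ j, |C₁ j|)) / n = TR / (n * N) + Real.log |(discr L : ℝ)| / (n * N) +
        (r * (2 * δ * hgt Q.rep) + (∑ j, |C₁ j|) / n) := by
    field_simp
  have f3 : (∑ j, |C₁ j|) / n ≤ δ * hgt Q.rep :=
    (div_le_self (Finset.sum_nonneg fun j _ => abs_nonneg _) hn1).trans q6
  rw [f2] at f1
  unfold ldisc
  rw [htow]
  have f4 : ε * hgt Q.rep = r * (4 * (δ * hgt Q.rep)) + M * (δ * hgt Q.rep) + 4 * (δ * hgt Q.rep) := by
    rw [← hδε]
    ring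
  have f5 : (r : ℝ) * (2 * δ * hgt Q.rep) ≤ r * (4 * (δ * hgt Q.rep)) := by
    have : 0 ≤ δ * hgt Q.rep := mul_nonneg hδ0.le hh0
    exact mul_le_mul_of_nonneg_left (by linarith) (Nat.cast_nonneg _)
  have f6 : 0 ≤ δ * hgt Q.rep := mul_nonneg hδ0.le hh0
  rw [sub_mul, ← hn]
  linarith


open Classical in
theorem main (hRAM : StmRAM) (hNRM : StmNRM) (φ : K →+* ℂ) (hm : 1 ≤ m)
    (hd : 3 ≤ finrank ℚ K * (m + 1)) :
    ∃ E₀ : Set (ℙ K (Fin (m + 1) → K)), DensityZero (Pts K m) E₀ ∧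
    ∀ (A : Type) [CommRing A] [IsDomain A] [IsIntegrallyClosed A]
      [Algebra (MvPolynomial (Fin m) K) A] [FaithfulSMul (MvPolynomial (Fin m) K) A]
      [Module.Finite (MvPolynomial (Fin m) K) A]
      (r : ℕ) (F : Fin r → MvPolynomial (Fin (m + 1)) (𝓞 K)) (κ : Fin r → ℕ)
      (Y : Fin r → Finset A) (s : Fin r → ℕ),
      (∀ j, (F j).IsHomogeneous (κ j)) →
      (∀ j, Irreducible (map (algebraMap (𝓞 K) K) (F j))) →
      (∀ j, Irreducible (deh (F j))) →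
      (∀ i j, i ≠ j →
        ¬ Associated (map (algebraMap (𝓞 K) K) (F i)) (map (algebraMap (𝓞 K) K) (F j))) →
      (∀ j, FullW (map (φ.comp (algebraMap (𝓞 K) K)) (F j)) (κ j)) →
      (∀ j, SheetsLE A (deh (F j)) (Y j) (s j)) →
      (∀ j, s j ≤ Module.finrank (MvPolynomial (Fin m) K) A) →
      ∀ (d : ℕ) (R : MvPolynomial (Fin (m + 1)) (𝓞 K)), R.IsHomogeneous d → R ≠ 0 →
      ∀ S' : Finset ℕ, (∀ p ∈ S', p.Prime) →
      ∀ (t : ℕ) (F' G' : Fin t → MvPolynomial (Fin (m + 1)) (𝓞 K)) (κ' ε' : Fin t → ℕ),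
      (∀ l, (F' l).IsHomogeneous (κ' l)) → (∀ l, (G' l).IsHomogeneous (ε' l)) →
      (∀ l, Irreducible (map (algebraMap (𝓞 K) K) (F' l))) →
      (∀ l, ¬ map (algebraMap (𝓞 K) K) (F' l) ∣ map (algebraMap (𝓞 K) K) (G' l)) →
      ∀ (M Λ : ℕ) (ε : ℝ), 0 < ε →
        (∃ T : ℝ, ∀ Q : ℙ K (Fin (m + 1) → K), Q ∉ E₀ → T < hgt Q.rep →
          Concl A F κ Y s d R S' F' G' κ' ε' M Λ ε Q) ∧
        AA fun Q => Concl A F κ Y s d R S' F' G' κ' ε' M Λ ε Q := by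
  obtain ⟨E₁, hE₁, hall⟩ := univK (K := K) (m := m) φ hm hd
  obtain ⟨E₂, hE₂, hprx⟩ := prxK (K := K) (m := m) Pl1.t_PL1 Pl2.t_PL2 hm
  refine ⟨E₁ ∪ E₂, dens_union hE₁ hE₂, ?_⟩
  intro A _ _ _ _ _ _ r F κ Y s h1 h2 h3 h4 h5 h6 h7 d R hR hR0 S' hS' t F' G' κ' ε' g1 g2 g3 g4
    M Λ ε hε
  obtain ⟨G, e, δ, B, hδ0, k1, k2, hfin⟩ := concl hRAM hNRM A F κ Y s h1 h2 h3 h4 h6 h7 d R S' F' G'
    κ' ε' M Λ ε hε
  have hGne : ∀ j, G j ≠ 0 := by
    intro j h0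
    apply k2 j
    rw [h0, map_zero]
    exact dvd_zero _
  have A1 : ∀ j, AdmK φ (fun _ : Fin 1 => F j) (fun _ => κ j) (fun _ => κ j) (fun _ : Fin 1 => F j)
      (fun _ => G j) (fun _ => κ j) (fun _ => e j) := fun j =>
    ⟨fun _ => h1 j, fun _ => h2 j, fun i i' hi => absurd (Subsingleton.elim i i') hi,
      fun _ => hasW_of_full (h5 j), fun _ => h1 j, fun _ => k1 j, fun _ => h2 j, fun _ => k2 j⟩
  have hθ : ∀ j, (κ j : ℝ) - δ < ∑ _i : Fin 1, (κ j : ℝ) := by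
    intro j
    rw [Finset.univ_unique, Finset.sum_singleton]
    linarith
  have A2 : AdmK φ (fun i : Fin 0 => (i.elim0 : MvPolynomial (Fin (m + 1)) (𝓞 K)))
      (fun i : Fin 0 => (i.elim0 : ℕ)) (fun i : Fin 0 => (i.elim0 : ℕ)) F' G' κ' ε' :=
    ⟨fun i => i.elim0, fun i => i.elim0, fun i => i.elim0, fun i => i.elim0, g1, g2, g3, g4⟩
  have hθ2 : -δ < ∑ i : Fin 0, (((i.elim0 : ℕ) : ℕ) : ℝ) := by simpa using hδ0
  constructor
  · have c1 : ∀ j, ∃ T : ℝ, ∀ Q : ℙ K (Fin (m + 1) → K), Q ∉ E₁ → T < hgt Q.rep →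
        P1 (F j) (G j) (κ j) (e j) δ Q := fun j =>
      hall 1 1 _ _ _ _ _ _ _ (A1 j) 1 ((κ j : ℝ) - δ) (hθ j)
    choose T₁ hT₁ using c1
    obtain ⟨T₂, hT₂⟩ := hall 0 t _ _ _ F' G' κ' ε' A2 Λ (-δ) hθ2
    obtain ⟨T₃, hT₃⟩ := hprx d R hR hR0 S' hS' δ hδ0
    choose T₄ hT₄ using fun j => hprx (e j) (G j) (k1 j) (hGne j) ∅ (by simp) 1 one_pos
    obtain ⟨T₅, hT₅⟩ := hprx 1 (X 0) (isHomogeneous_X _ _) (X_ne_zero _) ∅ (by simp) 1 one_pos
    refine ⟨|B| + (∑ j, |T₁ j| + ∑ j, |T₄ j| + |T₂| + |T₃| + |T₅|), fun Q hQE hTQ => ?_⟩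
    rw [Set.mem_union, not_or] at hQE
    have p0 := abs_nonneg B
    have p1 := le_abs_self B
    have p2 : 0 ≤ ∑ j, |T₁ j| := Finset.sum_nonneg fun j _ => abs_nonneg _
    have p3 : 0 ≤ ∑ j, |T₄ j| := Finset.sum_nonneg fun j _ => abs_nonneg _
    have p4 := abs_nonneg T₂
    have p5 := abs_nonneg T₃
    have p6 := abs_nonneg T₅
    have p7 := le_abs_self T₂
    have p8 := le_abs_self T₃
    have p9 := le_abs_self T₅
    refine hfin Q (by linarith) (fun j => hT₁ j Q hQE.1 ?_) (hT₂ Q hQE.1 (by linarith))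
      (hT₃ Q hQE.2 (by linarith)) (fun j => (hT₄ j Q hQE.2 ?_).1) ?_
    · have a1 := Finset.single_le_sum (f := fun j => |T₁ j|) (fun j _ => abs_nonneg _)
        (Finset.mem_univ j)
      have a2 := le_abs_self (T₁ j)
      linarith
    · have a1 := Finset.single_le_sum (f := fun j => |T₄ j|) (fun j _ => abs_nonneg _)
        (Finset.mem_univ j)
      have a2 := le_abs_self (T₄ j)
      linarith
    · have := (hT₅ Q hQE.2 (by linarith)).1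
      rwa [aeval_X] at this
  · have b1 : AA fun Q : ℙ K (Fin (m + 1) → K) => ∀ j ∈ (Finset.univ : Finset (Fin r)),
        P1 (F j) (G j) (κ j) (e j) δ Q ∧ aeval Q.rep (G j) ≠ 0 :=
      AA.all _ fun j _ => (KPts.aa_of_adm φ hd (A1 j) ((1 : ℕ) : ℝ) (Nat.cast_nonneg _) _
        (hθ j)).and ((Prx.prx Pl1.t_PL1 Pl2.t_PL2 (e j) (G j) (k1 j) (hGne j) ∅ (by simp)
          one_pos).mono fun Q hQ => hQ.1)
    have b2 : AA fun Q : ℙ K (Fin (m + 1) → K) => P2 F' G' κ' ε' Λ δ Q :=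
      KPts.aa_of_adm φ hd A2 (Λ : ℝ) (Nat.cast_nonneg _) _ hθ2
    have b3 := Prx.prx (K := K) (m := m) Pl1.t_PL1 Pl2.t_PL2 d R hR hR0 S' hS' hδ0
    have b4 := Prx.prx (K := K) (m := m) Pl1.t_PL1 Pl2.t_PL2 1 (X 0) (isHomogeneous_X _ _)
      (X_ne_zero _) ∅ (by simp) one_pos
    refine ((b1.and b2).and ((b3.and b4).and (AA.large B))).mono fun Q hQ => ?_
    obtain ⟨⟨c1, c2⟩, ⟨c3, c4⟩, c5⟩ := hQ
    refine hfin Q c5 (fun j => (c1 j (Finset.mem_univ j)).1) c2 c3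
      (fun j => (c1 j (Finset.mem_univ j)).2) ?_
    have := c4.1
    rwa [aeval_X] at this

end Pool.Agent.N752.CP
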